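import Pool.Agent.MP_3ce0a0_al.H79.SpecN

/-! The Lefschetz count on the graph realising the cage group. -/

namespace Pool.Agent.MP_3ce0a0_al.H41

open Equiv Finset
open Pool.Agent.MP_3ce0a0_al.H79

theorem inv_small {A : Type} [Fintype A] [DecidableEq A] (σ : Perm A) (k : ℕ)
    (hσ : ∀ l ∈ σ.cycleType, k ≤ l) (T : Finset A) (hT : ∀ a ∈ T, σ a ∈ T) (hk : T.card < k) :
    ∀ a ∈ T, σ a = a := by
  intro a ha
  by_contra hne
  have hs : a ∈ σ.support := Perm.mem_support.2 hne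
  have h1 : (σ.cycleOf a).support.card ∈ σ.cycleType := by
    rw [Perm.cycleType_def]
    exact Multiset.mem_map.2 ⟨_, Perm.cycleOf_mem_cycleFactorsFinset_iff.2 hs, rfl⟩
  have hp : ∀ n : ℕ, (σ ^ n) a ∈ T := by
    intro n
    induction n with
    | zero => simpa using ha
    | succ n ih => rw [pow_succ', Perm.mul_apply]; exact hT _ ih
  have h2 : (σ.cycleOf a).support ⊆ T := by
    intro b hb
    obtain ⟨n, -, rfl⟩ := (Perm.mem_support_cycleOf_iff.1 hb).1.exists_pow_eq'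
    exact hp n
  have := card_le_card h2
  have := hσ _ h1
  omega

theorem ex_perm (A : Type) [Fintype A] [DecidableEq A] (k p : ℕ) (hk : 2 ≤ k)
    (h : p + 2 * k ≤ Fintype.card A) : ∃ σ : Perm A, Perm.sign σ = 1 ∧
      (∀ l ∈ σ.cycleType, k ≤ l) ∧ (univ.filter fun a => σ a = a).card = p := by
  have key : ∀ σ : Perm A, σ.cycleType.sum + p = Fintype.card A →
      (univ.filter fun a => σ a = a).card = p := by
    intro σ hσ
    rw [Perm.sum_cycleType] at hσ
    have h1 : (univ.filter fun a => σ a = a) = σ.supportᶜ := by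
      ext a; simp
    rw [h1, card_compl]; omega
  rcases Nat.even_or_odd (Fintype.card A - p) with he | ho
  · obtain ⟨σ, hσ⟩ := (Perm.exists_with_cycleType_iff A
      (m := {k, Fintype.card A - p - k})).2 ⟨by simp; omega, by simp; omega⟩
    refine ⟨σ, ?_, by rw [hσ]; simp; omega, key σ (by rw [hσ]; simp; omega)⟩
    rw [Perm.sign_of_cycleType, hσ]
    apply Even.neg_one_pow
    obtain ⟨c, hc⟩ := he
    exact ⟨c + 1, by simp; omega⟩
  · obtain ⟨σ, hσ⟩ := (Perm.exists_with_cycleType_iff A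
      (m := {Fintype.card A - p})).2 ⟨by simp, by simp; omega⟩
    refine ⟨σ, ?_, by rw [hσ]; simp; omega, key σ (by rw [hσ]; simp; omega)⟩
    rw [Perm.sign_of_cycleType, hσ]
    apply Even.neg_one_pow
    obtain ⟨c, hc⟩ := ho
    exact ⟨c + 1, by simp; omega⟩

theorem alt_zero {ι : Type} [DecidableEq ι] (K S : Finset ι) (h : S.card < K.card) :
    ∑ P ∈ K.powerset, (-1 : ℂ) ^ P.card * (if S ⊆ P then 1 else 0) = 0 := by
  obtain ⟨x, hx, hxS⟩ := exists_mem_notMem_of_card_lt_card h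
  rw [← insert_erase hx, sum_powerset_insert (notMem_erase x K), ← sum_add_distrib]
  refine sum_eq_zero fun P hP => ?_
  have hxP : x ∉ P := fun h' => notMem_erase x K (mem_powerset.1 hP h')
  have h1 : S ⊆ insert x P ↔ S ⊆ P := subset_insert_iff_of_notMem hxS
  rw [card_insert_of_notMem hxP, pow_succ]
  simp only [h1]
  ring

theorem alt_lin {ι : Type} [DecidableEq ι] (K : Finset ι) (h : 2 ≤ K.card) (c r : ℂ) :
    ∑ P ∈ K.powerset, (-1 : ℂ) ^ P.card * (c + r * P.card) = 0 := by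
  have h0 := alt_zero K ∅ (by rw [card_empty]; omega)
  have h1 : ∑ a ∈ K, ∑ P ∈ K.powerset,
      (-1 : ℂ) ^ P.card * (if ({a} : Finset ι) ⊆ P then 1 else 0) = 0 :=
    sum_eq_zero fun a _ => alt_zero K {a} (by simp; omega)
  rw [sum_comm] at h1
  have h2 : ∀ P ∈ K.powerset, ∑ a ∈ K,
      (-1 : ℂ) ^ P.card * (if ({a} : Finset ι) ⊆ P then 1 else 0) = (-1) ^ P.card * P.card := by
    intro P hP
    rw [← mul_sum]
    congr 1
    simp only [singleton_subset_iff]
    rw [← natCast_card_filter, filter_mem_eq_inter, inter_eq_right.2 (mem_powerset.1 hP)]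
  rw [sum_congr rfl h2] at h1
  simp only [empty_subset, if_true, mul_one] at h0
  calc ∑ P ∈ K.powerset, (-1 : ℂ) ^ P.card * (c + r * P.card)
      = c * ∑ P ∈ K.powerset, (-1 : ℂ) ^ P.card +
        r * ∑ P ∈ K.powerset, (-1 : ℂ) ^ P.card * P.card := by
        rw [mul_sum, mul_sum, ← sum_add_distrib]
        exact sum_congr rfl fun P _ => by ring
    _ = 0 := by rw [h0, h1]; ring

section cells

variable {ι G Ω : Type} [Fintype ι] [DecidableEq ι] [Group G] [MulAction G Ω]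

/-- cells fixed by `ξ` with support in `P`. -/
noncomputable def cnt (ξ : G) (s : Ω → Finset ι) (P : Finset ι) : ℕ :=
  Nat.card {ω // ξ • ω = ω ∧ s ω ⊆ P}

theorem supp_xi (w : WS ι G) (ξ : G) (hc : ∀ σ, Commute ξ (w.π σ)) (hε : ∀ a, w.ε a = 1)
    (hξ : ξ * ξ = 1) {k : ℕ} {s : Ω → Finset ι} (hs : Supp (w.map (MulAction.toPermHom G Ω)) k s)
    (hk : 2 * k + 3 ≤ Fintype.card ι) (ω : Ω) : s (ξ • ω) = s ω := by
  have key : ∀ ω, s (ξ • ω) ⊆ s ω := by
    intro ω
    have h1 := hs.1 ω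
    have h2 : Disjoint (s (ξ • ω)) (s ω)ᶜ := by
      refine hs.2.2.1 _ _ (by rw [card_compl]; omega) ⟨fun σ h3 h4 => ?_, fun a _ b _ => ?_⟩
      · have h5 : w.π σ • ω = ω := (hs.2.1 ω).1 σ h3 h4
        show w.π σ • ξ • ω = ξ • ω
        rw [← mul_smul, ← (hc σ).eq, mul_smul, h5]
      · show w.ε a • w.ε b • ξ • ω = ξ • ω
        rw [hε, hε, one_smul, one_smul]
    intro a ha
    by_contra hn
    exact disjoint_left.1 h2 ha (mem_compl.2 hn)
  refine Subset.antisymm (key ω) ?_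
  have := key (ξ • ω)
  rwa [← mul_smul, hξ, one_smul] at this

theorem cnt_map (w : WS ι G) (ξ : G) (hc : ∀ σ, Commute ξ (w.π σ)) {k : ℕ} {s : Ω → Finset ι}
    (hs : Supp (w.map (MulAction.toPermHom G Ω)) k s) (P : Finset ι) (τ : Perm ι) :
    cnt ξ s (P.map τ.toEmbedding) = cnt ξ s P := by
  symm
  refine Nat.card_congr ((MulAction.toPerm (w.π τ)).subtypeEquiv fun ω => ?_)
  have h1 : s (w.π τ • ω) = (s ω).map τ.toEmbedding := hs.2.2.2.1 τ ω
  show _ ↔ ξ • w.π τ • ω = w.π τ • ω ∧ s (w.π τ • ω) ⊆ _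
  rw [h1, map_subset_map, ← mul_smul, (hc τ).eq, mul_smul, smul_left_cancel_iff]

omit [Fintype ι] in
theorem cnt_alt [Fintype Ω] (ξ : G) {k : ℕ} {s : Ω → Finset ι} (hs : ∀ ω, (s ω).card < k)
    (K : Finset ι) (hK : K.card = k) :
    ∑ P ∈ K.powerset, (-1 : ℂ) ^ P.card * (cnt ξ s P : ℂ) = 0 := by
  classical
  have h1 : ∀ P, (cnt ξ s P : ℂ) =
      ∑ ω, (if ξ • ω = ω then (1 : ℂ) else 0) * if s ω ⊆ P then 1 else 0 := by
    intro P
    unfold cnt
    rw [Nat.card_eq_fintype_card, Fintype.card_subtype, natCast_card_filter]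
    refine sum_congr rfl fun ω _ => ?_
    by_cases a1 : ξ • ω = ω <;> by_cases a2 : s ω ⊆ P <;> simp [a1, a2]
  simp only [h1, mul_sum]
  rw [sum_comm]
  refine sum_eq_zero fun ω _ => ?_
  have := alt_zero K (s ω) (hK ▸ hs ω)
  calc _ = (if ξ • ω = ω then (1 : ℂ) else 0) *
      ∑ P ∈ K.powerset, (-1 : ℂ) ^ P.card * (if s ω ⊆ P then 1 else 0) := by
        rw [mul_sum]; exact sum_congr rfl fun P _ => by ring
    _ = 0 := by rw [this, mul_zero]

end cells

/-- the fixed set of a permutation of `A`, together with the extra point. -/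
def fixS {A : Type} [Fintype A] [DecidableEq A] (σ : Perm A) : Finset (Option A) :=
  insert none ((univ.filter fun a => σ a = a).map Function.Embedding.some)

theorem mem_fixS {A : Type} [Fintype A] [DecidableEq A] (σ : Perm A) (a : Option A) :
    a ∈ fixS σ ↔ Equiv.optionCongr σ a = a := by
  cases a <;> simp [fixS]

theorem card_fixS {A : Type} [Fintype A] [DecidableEq A] (σ : Perm A) :
    (fixS σ).card = (univ.filter fun a => σ a = a).card + 1 := by
  unfold fixS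
  rw [card_insert_of_notMem (by simp), card_map]

theorem fix_iff {A G Ω : Type} [Fintype A] [DecidableEq A] [Group G] [MulAction G Ω]
    (w : WS (Option A) G) (ξ : G) {k : ℕ} {s : Ω → Finset (Option A)}
    (hs : Supp (w.map (MulAction.toPermHom G Ω)) k s) (hx : ∀ ω, s (ξ • ω) = s ω) (σ : Perm A)
    (h1 : Perm.sign σ = 1) (h2 : ∀ l ∈ σ.cycleType, k ≤ l) (ω : Ω) :
    (ξ * w.π (Equiv.optionCongr σ)) • ω = ω ↔ ξ • ω = ω ∧ s ω ⊆ fixS σ := by
  have key : s ω ⊆ fixS σ → w.π (Equiv.optionCongr σ) • ω = ω := fun h =>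
    (hs.2.1 ω).1 (Equiv.optionCongr σ) (by rw [Equiv.optionCongr_sign, h1]) fun a ha =>
      (mem_fixS σ a).1 (h (by simpa using ha))
  rw [mul_smul]
  constructor
  · intro h
    have h3 : s (w.π (Equiv.optionCongr σ) • ω) = (s ω).map (Equiv.optionCongr σ).toEmbedding :=
      hs.2.2.2.1 _ ω
    have h4 : (s ω).map (Equiv.optionCongr σ).toEmbedding = s ω := by rw [← h3, ← hx, h]
    have h5 : s ω ⊆ fixS σ := by
      have h6 := inv_small σ k h2 (univ.filter fun a => some a ∈ s ω) (fun a ha => by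
        rw [mem_filter] at ha ⊢
        refine ⟨mem_univ _, ?_⟩
        rw [← h4]
        exact mem_map.2 ⟨some a, ha.2, rfl⟩) (by
        refine lt_of_le_of_lt ?_ (hs.1 ω)
        exact card_le_card_of_injOn some (fun a ha => (mem_filter.1 ha).2)
          (Option.some_injective A).injOn)
      intro a ha
      rw [mem_fixS]
      cases a with
      | none => rfl
      | some a => simpa using h6 a (mem_filter.2 ⟨mem_univ _, ha⟩)
    rw [key h5] at h
    exact ⟨h, h5⟩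
  · rintro ⟨h3, h4⟩
    rw [key h4, h3]

theorem sx (h1 : SConn) (h2 : SGr) (h3 : SLef) : SX := by
  intro A G V E _ _ _ _ _ _ _ m π ψ o t j w ξ k h r sV sE hε hc hξ hA hD hV hE hk hkA hfin htr
  obtain ⟨ao, at', hne, hcon, -, hinj, hrng, heq, -⟩ := hA
  have hcard : Fintype.card (Option A) = Fintype.card A + 1 := Fintype.card_option
  have hxV := supp_xi w ξ hc hε hξ hV (by omega)
  have hxE := supp_xi w ξ hc hε hξ hE (by omega)
  have hsub := (h1 (Option A) V E o t _ _ k sV sE (by omega)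
    ⟨fun σ e => ao (w.π σ) e, fun σ e => at' (w.π σ) e, fun a e => ao (w.ε a) e,
      fun a e => at' (w.ε a) e⟩ hV hE hcon).1
  have hP : ∀ P : Finset (Option A), P.Nonempty → P.card ≤ k →
      (cnt ξ sV P : ℂ) - cnt ξ sE P = (1 - h - r) + r * P.card := by
    intro P hP0 hPk
    have hpos := hP0.card_pos
    obtain ⟨σ, s1, s2, s3⟩ := ex_perm A k (P.card - 1) hk (by omega)
    obtain ⟨τ, hτ⟩ := Perm.exists_map_finset_eq (fixS σ) P (by rw [card_fixS, s3]; omega)
    have hl := h3 V E (HV m) o t j (MulAction.toPerm (ξ * w.π (Equiv.optionCongr σ)))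
      (MulAction.toPerm (ξ * w.π (Equiv.optionCongr σ)))
      (π (ψ (ξ * w.π (Equiv.optionCongr σ)))) (fun e => ao _ e) (fun e => at' _ e) hne hcon hinj
      hrng (fun x e => heq _ x e)
    rw [htr σ s1] at hl
    have e1 : Nat.card {v : V // MulAction.toPerm (ξ * w.π (Equiv.optionCongr σ)) v = v} =
        cnt ξ sV (fixS σ) :=
      Nat.card_congr (Equiv.subtypeEquivRight fun v => fix_iff w ξ hV hxV σ s1 s2 v)
    have e2 : Nat.card {v : E // MulAction.toPerm (ξ * w.π (Equiv.optionCongr σ)) v = v} =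
        cnt ξ sE (fixS σ) :=
      Nat.card_congr (Equiv.subtypeEquivRight fun v => fix_iff w ξ hE hxE σ s1 s2 v)
    have e3 : (Nat.card {a // σ a = a} : ℂ) = P.card - 1 := by
      rw [Nat.card_eq_fintype_card, Fintype.card_subtype, s3, Nat.cast_sub hpos, Nat.cast_one]
    rw [e1, e2, e3, ← cnt_map w ξ hc hV _ τ, ← cnt_map w ξ hc hE _ τ, hτ] at hl
    rw [hl]; ring
  obtain ⟨K, -, hK⟩ := exists_subset_card_eq (s := (univ : Finset (Option A))) (n := k)
    (by rw [card_univ]; omega)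
  have h0 : (cnt ξ sV ∅ : ℂ) - cnt ξ sE ∅ = 1 - h - r := by
    have a1 := cnt_alt ξ hV.1 K hK
    have a2 := cnt_alt ξ hE.1 K hK
    have a3 := alt_lin K (by omega) (1 - h - r) r
    have a4 : ∑ P ∈ K.powerset, (-1 : ℂ) ^ P.card *
        ((cnt ξ sV P : ℂ) - cnt ξ sE P - ((1 - h - r) + r * P.card)) = 0 := by
      simp only [mul_sub]
      rw [sum_sub_distrib, sum_sub_distrib, a1, a2, a3]; ring
    rw [sum_eq_single ∅ (fun P hP' hne' => by
      rw [hP P (nonempty_iff_ne_empty.2 hne') (hK ▸ card_le_card (mem_powerset.1 hP')), sub_self,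
        mul_zero]) (fun h' => (h' (empty_mem_powerset K)).elim)] at a4
    simp only [card_empty, pow_zero, one_mul, Nat.cast_zero, mul_zero, add_zero] at a4
    exact sub_eq_zero.1 a4
  have h0' : cnt ξ sV ∅ + h + r = cnt ξ sE ∅ + 1 := by
    have : ((cnt ξ sV ∅ + h + r : ℕ) : ℂ) = ((cnt ξ sE ∅ + 1 : ℕ) : ℂ) := by
      push_cast; linear_combination h0
    exact_mod_cast this
  have hend : ∀ e, (ξ • e = e ∧ sE e ⊆ ∅) →
      (ξ • o e = o e ∧ sV (o e) ⊆ ∅) ∧ (ξ • t e = t e ∧ sV (t e) ⊆ ∅) := fun e he =>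
    ⟨⟨by rw [← ao, he.1], (hsub e).1.trans he.2⟩, ⟨by rw [← at', he.1], (hsub e).2.trans he.2⟩⟩
  by_cases hv : ∃ v, ξ • v = v ∧ sV v ⊆ ∅
  · left
    have b1 := (h2 V E o t).2.2.2 (fun v => ξ • v = v ∧ sV v ⊆ ∅) (fun e => ξ • e = e ∧ sE e ⊆ ∅)
      ((FixSpan (ψ ξ)).map j) hend hv fun c hc1 hc2 => by
        obtain ⟨x, rfl⟩ := (hrng c).2 hc1
        exact ⟨x, (hD ξ hξ x).1 fun e he => (hc2 e he).1, rfl⟩
    have b2 := Submodule.finrank_map_le j (FixSpan (ψ ξ))
    have b3 : cnt ξ sE ∅ + 1 ≤ cnt ξ sV ∅ + Module.finrank ℂ ((FixSpan (ψ ξ)).map j) := b1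
    omega
  · right
    have b1 : cnt ξ sV ∅ = 0 := by
      have : IsEmpty {v // ξ • v = v ∧ sV v ⊆ ∅} := ⟨fun v => hv ⟨v.1, v.2⟩⟩
      exact Nat.card_of_isEmpty
    have b2 : cnt ξ sE ∅ = 0 := by
      have : IsEmpty {e // ξ • e = e ∧ sE e ⊆ ∅} := ⟨fun e => hv ⟨o e.1, (hend e.1 e.2).1⟩⟩
      exact Nat.card_of_isEmpty
    omega

end Pool.Agent.MP_3ce0a0_al.H41
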